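import Pool.Agent.Helper76.ND.StE

/-!
# Project DE (MP_77ff3d_nt, predecessor densities): definitions

Everything on top of project ND (`Pool/Agent/Helper76/ND`): `S` is the shortcut map, `II y f` the integral of
`f` against the measure `gg (N / y) / y`, `Inv B f` the invariance of `f` above `B`.
New: a base point `z ≥ 1`; the old window `[x^1.03, x^1.04]` is replaced by `[z x^1.03, z x^1.04]` and
the old range of `y` by `[z x^1.05, z x^1.06]`.  For `z = 1` these are the old definitions.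
-/

set_option autoImplicit false

noncomputable section

namespace Pool.Agent.Helper76.DE

open Finset Pool.Agent.Helper76.ND

/-- `z ≥ 1` and `y / z` is in the range of `x` -/
def YZ (z x y : ℝ) : Prop := 1 ≤ z ∧ YR x (y / z)

/-- number of steps -/
def tz (z x y : ℝ) : ℕ := t1 x (y / z)

/-- window function -/
def kz (z x : ℝ) (M : ℕ) : ℝ :=
  if zl x ≤ (M : ℝ) / z ∧ (M : ℝ) / z ≤ zr x then rho / (Real.log x / 100) else 0

/-- first form of the sum over the window (exact preimages) -/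
def Awz (z x y : ℝ) (f : ℕ → ℝ) : ℝ :=
  ∑ t ∈ range (tz z x y + 1), ∑ M ∈ Icc 1 ⌊z * zr x⌋₊, kz z x M * f M *
    ∑ l ∈ (W t).filter (fun l => 3 ^ hd l ∣ 2 ^ t * M + cc l), mu y ((2 ^ t * M + cc l) / 3 ^ hd l)

/-- second form (the preimages replaced by `2 ^ t M / 3 ^ k`) -/
def Agz (z x y : ℝ) (f : ℕ → ℝ) : ℝ :=
  ∑ t ∈ range (tz z x y + 1), ∑ M ∈ Icc 1 ⌊z * zr x⌋₊, kz z x M * f M *
    ∑ l ∈ (W t).filter (fun l => 3 ^ hd l ∣ 2 ^ t * M + cc l),
      gg (2 ^ t * M / 3 ^ hd l / y) / y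

/-- third form (the number of preimages replaced by its mean) -/
def Amz (z x y : ℝ) (m : ℕ) (f : ℕ → ℝ) : ℝ :=
  ∑ t ∈ range (tz z x y + 1), ∑ M ∈ Icc 1 ⌊z * zr x⌋₊, kz z x M * f M * (3 ^ m * pim m M / M) *
    ∑ k ∈ range (t + 1), q t k * ((2 ^ t * (M / y) / 3 ^ k) * gg (2 ^ t * (M / y) / 3 ^ k))

/-- the limit functional -/
def JJz (z x : ℝ) (m : ℕ) (f : ℕ → ℝ) : ℝ :=
  ∑ M ∈ Icc 1 ⌊z * zr x⌋₊, kz z x M * f M * (3 ^ m * pim m M / M)

/-- the precision used for `x` -/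
def mm (x : ℝ) : ℕ := ⌈Real.log x ^ (1 / 8 : ℝ)⌉₊

/-- the points `y` of the average -/
def yj (z x : ℝ) (j : ℕ) : ℝ := z * x ^ (105 / 100 : ℝ) * Real.exp j

/-- number of points of the average -/
def Jn (x : ℝ) : ℕ := ⌊Real.log x / 100⌋₊

/-! ## Tauberian part -/

/-- `log 2` -/
def la : ℝ := Real.log 2

/-- `log (3/2)` -/
def lb : ℝ := Real.log (3 / 2)

/-- smoothed logarithmic sum, cut off at `Q` -/
def HH (Q : ℕ) (f : ℕ → ℝ) (y : ℝ) : ℝ := ∑ n ∈ Icc 1 Q, phi (n / y) * f n / n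

/-- tail -/
def Ct (Q : ℕ) (f : ℕ → ℝ) (y : ℝ) : ℝ := ∑ n ∈ (Icc 1 Q).filter (fun n : ℕ => y < n), f n / (n : ℝ) ^ 2

/-- total variation of the binomial law under a shift by one -/
def tau (n : ℕ) : ℝ := ∑ j ∈ range (n + 2), |((n.choose j : ℝ) - (if j = 0 then 0 else (n.choose (j - 1) : ℝ)))| / 2 ^ n

/-! ## Predecessors -/

open Classical in
/-- indicator of the predecessor set of `a` under `S` -/
def pS (a N : ℕ) : ℝ := if ∃ k, S^[k] N = a then 1 else 0

open Classical in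
/-- indicator of the predecessor set of `a` under `T` -/
def pT (a N : ℕ) : ℝ := if ∃ k, T^[k] N = a then 1 else 0

/-- `f` has the mean `d` -/
def Mean (f : ℕ → ℝ) (d : ℝ) : Prop :=
  Filter.Tendsto (fun x : ℕ => (∑ n ∈ Icc 1 x, f n) / x) Filter.atTop (nhds d)

/-- `δ a` is the density of the predecessor set of `a` under `S` -/
def DS (δ : ℕ → ℝ) : Prop := ∀ a, 1 ≤ a → Mean (pS a) (δ a)

/-- number of visits to `[w, 2 w]` up to time `t0` -/
def vis (w : ℝ) (t0 N : ℕ) : ℝ :=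
  ∑ t ∈ range (t0 + 1), if w ≤ (S^[t] N : ℕ) ∧ ((S^[t] N : ℕ) : ℝ) ≤ 2 * w then 1 else 0

/-- the interval `[3/16, 3/2]` -/
def ind (u : ℝ) : ℝ := if 3 / 16 ≤ u ∧ u ≤ 3 / 2 then 1 else 0

/-- number of visits of the random walk of the word `l` (all suffixes) to `[3/16, 3/2]` -/
def Uv (v : ℝ) (l : List Bool) : ℝ :=
  ∑ t ∈ range (l.length + 1), ind (2 ^ t * v / 3 ^ hd (l.drop (l.length - t)))

end Pool.Agent.Helper76.DE
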