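import Pool.Agent.Helper5.KL.D14.All

/-!
# MP_77ff3d_nt: at least `c x^0.888` integers up to `x` reach `a` under the `3x-1` map

For every positive integer `a` not divisible by `3`.
-/

namespace Pool.Agent.Helper76.DE.DensityExponentOld

/-- The map of the problem: `a ↦ a/2` for even `a`, `a ↦ 3a-1` for odd `a`. -/
def T (a : ℕ) : ℕ := if a % 2 = 0 then a / 2 else 3 * a - 1

/-- For every positive integer `a` not divisible by `3` there is `c > 0` such that for all `x ≥ a` at
least `c x ^ (111/125)` of the integers `1 ≤ n ≤ x` have a trajectory containing `a`. -/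
theorem result (a : ℕ) (ha : 1 ≤ a) (h3 : ¬ 3 ∣ a) :
    ∃ c : ℝ, 0 < c ∧ ∀ x : ℕ, a ≤ x →
      c * (x : ℝ) ^ (111 / 125 : ℝ) ≤ (({n : ℕ | 1 ≤ n ∧ n ≤ x ∧ ∃ k : ℕ, T^[k] n = a}.ncard : ℕ) : ℝ) := by
  have h := H5KL.density 2187 12 1094 14797 111 125 6 (by norm_num) (by norm_num) (by norm_num)
    (by norm_num) (by norm_num) (by norm_num) (by norm_num) H5KL.TT0 H5KL.TT2 H5KL.isD0 H5KL.isD2
    (by decide +kernel) H5KL.allchk a ha h3
  obtain ⟨c, hc, h⟩ := h
  refine ⟨c, hc, fun x hx => ?_⟩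
  have h1 := h x hx
  norm_num at h1
  exact h1

end Pool.Agent.Helper76.DE.DensityExponentOld
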