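import Pool.Agent.Helper76.ND.Final
import Pool.Agent.Helper16.PRD.M_Bi
import Pool.Agent.Helper71.PRD.M_Ir
import Pool.Agent.Helper82.PRD.M_Ha
import Pool.Agent.Helper37.PRD.M_Nc
import Pool.Agent.Helper45.PRD.M_Nl
import Pool.Agent.Helper45.PRD.M_Hh
import Pool.Agent.Helper45.PRD.M_Rr
import Pool.Agent.Helper45.PRD.M_Ce
import Pool.Agent.Helper45.PRD.M_Tau
import Pool.Agent.Helper82.PRD.M_Vhz
import Pool.Agent.Helper4.PRD.M_Viz
import Pool.Agent.Helper90.PRD.M_Fwz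
import Pool.Agent.Helper24.PRD.M_Liz
import Pool.Agent.Helper90.PRD.M_Erz
import Pool.Agent.Helper90.PRD.M_Mnz
import Pool.Agent.Helper47.PRD.M_Eqz
import Pool.Agent.Helper37.PRD.M_Cst
import Pool.Agent.Helper76.PRD.M_Lim
import Pool.Agent.Helper76.PRD.M_Sg
import Pool.Agent.Helper80.PRD.M_Fxz
import Pool.Agent.Helper41.PRD.M_Va
import Pool.Agent.Helper42.PRD.M_Vb
import Pool.Agent.Helper98.PRD.M_Vc
import Pool.Agent.Helper34.PRD.M_Vm
import Pool.Agent.Helper48.PRD.M_Vd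
import Pool.Agent.Helper42.PRD.M_Yj
import Pool.Agent.Helper24.PRD.M_Ej
import Pool.Agent.Helper90.PRD.M_LN
import Pool.Agent.Helper42.PRD.M_Pi
import Pool.Agent.Helper76.PRD.M_Hit
import Pool.Agent.Helper42.PRD.M_Pd
import Pool.Agent.Helper42.PRD.M_Pz
import Pool.Agent.Helper42.PRD.M_Pc
import Pool.Agent.Helper42.PRD.M_Pr2
import Pool.Agent.Helper42.PRD.M_Pp
import Pool.Agent.Helper76.PRD.M_Ps
import Pool.Agent.Helper76.PRD.M_Fb
import Pool.Agent.Helper76.PRD.M_Fn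
import Pool.Agent.Helper76.PRD.M_Mv

/-!
# Project PRD (MP_77ff3d_nt): assembly
-/

set_option autoImplicit false

namespace Pool.Agent.Helper76.DE

theorem pBi : StBi := Pool.Agent.Helper16.PRD.hBi

theorem pIr : StIr := Pool.Agent.Helper71.PRD.hIr

theorem pHa : StHa := Pool.Agent.Helper82.PRD.hHa

theorem pNc : StNc := Pool.Agent.Helper37.PRD.hNc pBi pIr pHa

theorem pNl : StNl := Pool.Agent.Helper45.PRD.hNl pNc

theorem pHh : StHh := Pool.Agent.Helper45.PRD.hHh Pool.Agent.Helper76.ND.pPo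

theorem pRr : StRr := Pool.Agent.Helper45.PRD.hRr pHh

theorem pCe : StCe := Pool.Agent.Helper45.PRD.hCe pHh

theorem pTau : StTau := Pool.Agent.Helper45.PRD.hTau Pool.Agent.Helper76.ND.pPo pNl pHh pRr pCe

theorem pVhz : StVhz := Pool.Agent.Helper82.PRD.hVhz Pool.Agent.Helper76.ND.pRl Pool.Agent.Helper76.ND.pDr Pool.Agent.Helper76.ND.pPr

theorem pViz : StViz := Pool.Agent.Helper4.PRD.hViz Pool.Agent.Helper76.ND.pPr pVhz

theorem pFwz : StFwz := Pool.Agent.Helper90.PRD.hFwz Pool.Agent.Helper76.ND.pBw Pool.Agent.Helper76.ND.pBn Pool.Agent.Helper76.ND.pPr Pool.Agent.Helper76.ND.pPo pViz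

theorem pLiz : StLiz := Pool.Agent.Helper24.PRD.hLiz Pool.Agent.Helper76.ND.pBd Pool.Agent.Helper76.ND.pDr Pool.Agent.Helper76.ND.pPr Pool.Agent.Helper76.ND.pPo

theorem pErz : StErz := Pool.Agent.Helper90.PRD.hErz Pool.Agent.Helper76.ND.pNs Pool.Agent.Helper76.ND.pPe Pool.Agent.Helper76.ND.pQs Pool.Agent.Helper76.ND.pPo

theorem pMnz : StMnz := Pool.Agent.Helper90.PRD.hMnz Pool.Agent.Helper76.ND.pPr Pool.Agent.Helper76.ND.pNs Pool.Agent.Helper76.ND.pPo Pool.Agent.Helper76.ND.pTe Pool.Agent.Helper76.ND.pTl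

theorem pEqz : StEqz := Pool.Agent.Helper47.PRD.hEqz Pool.Agent.Helper76.ND.pPr Pool.Agent.Helper76.ND.pPo pFwz pLiz pErz pMnz Pool.Agent.Helper76.ND.pSd

theorem pCst : StCst := Pool.Agent.Helper37.PRD.hCst Pool.Agent.Helper76.ND.pPo pEqz

theorem pLim : StLim := Pool.Agent.Helper76.PRD.hLim pCst

theorem pDx : StDx := Pool.Agent.Helper76.PRD.hDx pLim pTau

theorem pDt : StDt := Pool.Agent.Helper76.PRD.hDt pDx

theorem pSg : StSg := Pool.Agent.Helper76.PRD.hSg pDt Pool.Agent.Helper76.ND.pFi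

theorem pFxz : StFxz := Pool.Agent.Helper80.PRD.hFxz Pool.Agent.Helper76.ND.pBw Pool.Agent.Helper76.ND.pPo

theorem pVa : StVa := Pool.Agent.Helper41.PRD.hVa Pool.Agent.Helper76.ND.pPo Pool.Agent.Helper76.ND.pTe

theorem pVb : StVb := Pool.Agent.Helper42.PRD.hVb pVa

theorem pVc : StVc := Pool.Agent.Helper98.PRD.hVc Pool.Agent.Helper76.ND.pRl Pool.Agent.Helper76.ND.pDr Pool.Agent.Helper76.ND.pPr

theorem pVm : StVm := Pool.Agent.Helper34.PRD.hVm Pool.Agent.Helper76.ND.pPo Pool.Agent.Helper76.ND.pPr Pool.Agent.Helper76.ND.pCy Pool.Agent.Helper76.ND.pBn pVb pVc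

theorem pVd : StVd := Pool.Agent.Helper48.PRD.hVd Pool.Agent.Helper76.ND.pPr pVhz

theorem pYj : StYj := Pool.Agent.Helper42.PRD.hYj

theorem pEj : StEj := Pool.Agent.Helper24.PRD.hEj Pool.Agent.Helper76.ND.pNs Pool.Agent.Helper76.ND.pPe Pool.Agent.Helper76.ND.pQs Pool.Agent.Helper76.ND.pPo pYj

theorem pLN : StLN := Pool.Agent.Helper90.PRD.hLN Pool.Agent.Helper76.ND.pPr Pool.Agent.Helper76.ND.pPo pFxz pLiz pMnz Pool.Agent.Helper76.ND.pSd pYj pEj

theorem pPi : StPi := Pool.Agent.Helper42.PRD.hPi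

theorem pHit : StHit := Pool.Agent.Helper76.PRD.hHit Pool.Agent.Helper76.ND.pPo pVm pVd pLN pPi pCst pDx

theorem pPd : StPd := Pool.Agent.Helper42.PRD.hPd

theorem pPz : StPz := Pool.Agent.Helper42.PRD.hPz Pool.Agent.Helper76.ND.pNs Pool.Agent.Helper76.ND.pQs

theorem pPc : StPc := Pool.Agent.Helper42.PRD.hPc Pool.Agent.Helper76.ND.pCh Pool.Agent.Helper76.ND.pNs Pool.Agent.Helper76.ND.pPe Pool.Agent.Helper76.ND.pSp Pool.Agent.Helper76.ND.pQs

theorem pPr2 : StPr2 := Pool.Agent.Helper42.PRD.hPr2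

theorem pPp : StPp := Pool.Agent.Helper42.PRD.hPp

theorem pPs : StPs := Pool.Agent.Helper76.PRD.hPs Pool.Agent.Helper76.ND.pGen Pool.Agent.Helper76.ND.pNs pPd pPz pPc pPr2 pPp

theorem pFb : StFb := Pool.Agent.Helper76.PRD.hFb Pool.Agent.Helper76.ND.pNs Pool.Agent.Helper76.ND.pPe pHit pPs

theorem pFn : StFn := Pool.Agent.Helper76.PRD.hFn pFb

theorem pMv : StMv := Pool.Agent.Helper76.PRD.hMv Pool.Agent.Helper76.ND.pNs Pool.Agent.Helper76.ND.pPe pPz pHit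

end Pool.Agent.Helper76.DE
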