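import Pool.Agent.Helper76.DE.Defs

/-!
# Project DE, part L: the estimates of project ND with a base point `z ≥ 1`, near constancy

The statements `Vhz ... Eqz` are the statements `StVh ... StEq` of `Pool/Agent/Helper76/ND/StE.lean` with
a base point `z`: `y` is replaced by `y / z` in `YR` and `t1`, the window `[zl x, zr x]` by
`[z zl x, z zr x]`.  Each proof is the old proof; the old Lean file is named in the docstring: COPY IT and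
change the parameters.  The old `StPr` is applied to the pair `(x, y / z)`.  All changes go in the right
direction because `z ≥ 1` (`y ≥ y / z`).  `L = log x` throughout.
-/

set_option autoImplicit false

noncomputable section

namespace Pool.Agent.Helper76.DE

open Finset Pool.Agent.Helper76.ND

/-- **Vhz** (position after `t` steps; old file `Pool/Agent/Helper77/ND/M_Vh.lean`).  Proof: `l = wd t N` is a
suffix of `wd (tz z x y) N`, so it is good with `D = L^(2/3) ≥ 1`; `h = hd l`, `|h - t/2| ≤ D`.  `StRl`: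
`S^[t] N = (3^h/2^t) (N - cc l/3^h)`, and by `StDr`, `StPr` (for `(x, y/z)`):
`cc l/3^h ≤ (L/2) x^(1/20) 3^D ≤ x^(21/20)/8 ≤ (y/z)/8 ≤ y/8 ≤ N/4`.  So
`log S^[t] N = h log 3 - t log 2 + log N + θ`, `-log 2 ≤ θ ≤ 0`, `|log N - log y| ≤ log 2`; total error
`≤ 1.1 D + 1.39 ≤ 3 D`.  Hypotheses: StRl, StDr, StPr. -/
def StVhz : Prop := ∃ x0 : ℝ, 3 ≤ x0 ∧ ∀ (z x y : ℝ) (N : ℕ), x0 ≤ x → YZ z x y → y / 2 ≤ N →
  (N : ℝ) ≤ 3 / 2 * y → Gd (Real.log x ^ (2 / 3 : ℝ)) (wd (tz z x y) N) → ∀ t ≤ tz z x y,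
  |Real.log (S^[t] N : ℕ) - (Real.log y - rho * t)| ≤ 3 * Real.log x ^ (2 / 3 : ℝ)

/-- **Viz** (visits to the window; old file `Pool/Agent/Helper83/ND/M_Vi.lean`).  Proof: the old proof
with `log S^[t] N` replaced by `log S^[t] N - log z` and `log y` by `log (y/z)`.
Hypotheses: StPr, StVhz. -/
def StViz : Prop := ∃ x0 C : ℝ, 3 ≤ x0 ∧ 0 < C ∧ ∀ (z x y : ℝ) (N : ℕ), x0 ≤ x → YZ z x y →
  y / 2 ≤ N → (N : ℝ) ≤ 3 / 2 * y → Gd (Real.log x ^ (2 / 3 : ℝ)) (wd (tz z x y) N) →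
  (∀ t ≤ tz z x y, z * x < (S^[t] N : ℕ)) ∧
  |∑ t ∈ range (tz z x y + 1), kz z x (S^[t] N) - 1| ≤ C * Real.log x ^ (-(1 / 3) : ℝ)

/-- **Fwz** (forward identity; old file `Pool/Agent/Helper83/ND/M_Fw.lean`).  Proof: the old proof
(`StBw` with `F = mu y`, `G = kz z x * f`, `L = ⌊2y⌋`, `L' = ⌊z zr x⌋`; `kz z x M = 0` for `M > z zr x` and for
`M = 0`, as `zl x > 0`).  `2^(tz) ≤ x^(1/4) ≤ ⌊2y⌋` as `x ≤ y/z ≤ y`.
Hypotheses: StBw, StBn, StPr, StPo, StViz. -/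
def StFwz : Prop := ∃ x0 C : ℝ, 3 ≤ x0 ∧ 0 < C ∧ ∀ (z x y : ℝ) (B : ℕ) (f : ℕ → ℝ), x0 ≤ x →
  YZ z x y → (∀ N, 0 ≤ f N ∧ f N ≤ 1) → (B : ℝ) ≤ z * x → Inv B f →
  |II y f - Awz z x y f| ≤ C * Real.log x ^ (-(1 / 3) : ℝ)

/-- **Fxz** (the exact form of `Awz`).  Proof: `StBw` for every `t`, with `F = mu y`, `G = kz z x * f`
(`L = ⌊2y⌋`, `L' = ⌊z zr x⌋`; the first step of the old `M_Fw.lean`), interchange of the two sums.
Hypotheses: StBw, StPo. -/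
def StFxz : Prop := ∀ (z x y : ℝ) (f : ℕ → ℝ), 3 ≤ x → YZ z x y →
  Awz z x y f = ∑ N ∈ Icc 1 ⌊2 * y⌋₊, mu y N *
    ∑ t ∈ range (tz z x y + 1), kz z x (S^[t] N) * f (S^[t] N)

/-- **Liz** (replace the preimages by `2^t M/3^k`; old file `Pool/Agent/Helper24/ND/M_Li.lean`; the bound is
now `C/L^2`).  Proof: the old proof: `2^t ≤ x^(1/4) ≤ y`, `Γ ≤ (L/2) x^(1/20) 3^D`, `y ≥ y/z ≥ x^(21/20)`; the good
words give `≤ 30 * 5 Γ/y ≤ 75 L 3^D/x`, the bad ones `≤ 30 (5/8) L exp (-4 L^(1/3))`, and both are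
`≤ C/L^2` (with `u = L^(1/3)`: `u^9 exp (-4u)` and `L^3 3^(L^(2/3)) exp (-L)` are bounded).
Hypotheses: StBd, StDr, StPr, StPo. -/
def StLiz : Prop := ∃ x0 C : ℝ, 3 ≤ x0 ∧ 0 < C ∧ ∀ (z x y : ℝ) (f : ℕ → ℝ), x0 ≤ x → YZ z x y →
  (∀ N, 0 ≤ f N ∧ f N ≤ 1) → |Awz z x y f - Agz z x y f| ≤ C / Real.log x ^ 2

/-- **Erz** (replace the number of preimages by its mean; old file
`Pool/Agent/Helper77/ND/M_Er.lean`).  Proof: the old proof; only `kz ≤ rho/(L/100)` is used, and the range of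
`M`.  Hypotheses: StNs, StPe, StQs, StPo. -/
def StErz : Prop := ∀ (z x y : ℝ) (m : ℕ) (f : ℕ → ℝ), 1 < x → 1 ≤ z → 0 < y →
  (∀ N, 0 ≤ f N ∧ f N ≤ 1) → (3 : ℝ) ^ m * 2 ^ (tz z x y) ≤ y →
  |Agz z x y f - Amz z x y m f| ≤ rho / (Real.log x / 100) *
    (3 / 2 * ∑ t ∈ range (tz z x y + 1), ∑ k ∈ Icc m t, Del m k t + 6 * m)

/-- **Mnz** (main term; old file `Pool/Agent/Helper31/ND/M_Mn.lean`; the bound is now `C/L^2`).  Proof: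
`T = tz + 1 ≥ (log (y/z) - 1.01 L)/rho`.  `Amz - JJz = ∑_M kz f (3^m pim m M/M) (∑_{t<T} ∑_k q t k V gg V - 1)`,
by `StTe` (`v = M/y ≤ zr x/(y/z) ≤ 1`, `phi v = 1`) the bracket is `- ∑_k q T k phi (2^T v/3^k)`, of absolute
value at most `v^(-1/4) (3/4)^(7T/80)` (`StTl`).  If `kz z x M ≠ 0` then `v ≥ x^(103/100)/(y/z)`, so this is at
most `x^(-1/800)` (same computation with `log (y/z)` in place of `log y`).  `pim m M ≤ 1`, and the sum of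
`1/M` over `z zl x ≤ M ≤ z zr x` is at most `1 + L` (it is contained in an interval of ratio `x^(1/100)`,
left end `≥ 1`; or compare with `∑ 1/M ≤ 1 + log (b/a)` for `a ≤ M ≤ b`, `a ≥ 1`); `kz ≤ 15/L`: total
`≤ 30 · 3^m x^(-1/800) ≤ 30 x^(-3/4000) ≤ C/L^2`.  Hypotheses: StPr, StNs, StPo, StTe, StTl. -/
def StMnz : Prop := ∃ x0 C : ℝ, 3 ≤ x0 ∧ 0 < C ∧ ∀ (z x y : ℝ) (m : ℕ) (f : ℕ → ℝ), x0 ≤ x →
  YZ z x y → (∀ N, 0 ≤ f N ∧ f N ≤ 1) → (3 : ℝ) ^ m ≤ x ^ (1 / 2000 : ℝ) →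
  |Amz z x y m f - JJz z x m f| ≤ C / Real.log x ^ 2

/-- **Eqz** (near constancy in one step; old file `Pool/Agent/Helper83/ND/M_Eq.lean`).  Proof: the old
proof with `m = mm x`: `|II y f - JJz z x m f|` is at most the sum of the errors in `StFwz`, `StLiz`, `StErz`,
`StMnz`; by `StSd` (`T = tz ≤ L/2`) the third is at most `C (m/L + m^(-1/200) + m/√L) ≤ C' L^(-1/1600)`
(`L^(1/8) ≤ m ≤ 2 L^(1/8)`).  The same for `y'`.
Hypotheses: StPr, StPo, StFwz, StLiz, StErz, StMnz, StSd. -/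
def StEqz : Prop := ∃ x0 C : ℝ, 3 ≤ x0 ∧ 0 < C ∧ ∀ (z x y y' : ℝ) (B : ℕ) (f : ℕ → ℝ), x0 ≤ x →
  YZ z x y → YZ z x y' → (∀ N, 0 ≤ f N ∧ f N ≤ 1) → (B : ℝ) ≤ z * x → Inv B f →
  |II y f - II y' f| ≤ C * Real.log x ^ (-(1 / 1600) : ℝ)

/-- **Cst** (near constancy).  Proof: `a = 1/1600`; always `0 ≤ II y f ≤ 1/2` (`StPo`: `mu y N ≤ 1/(4y)`, at most
`2y` terms).  Claim: there is `C1` with `|II y f - II y' f| ≤ C1 s^(-a)` if `s = log (y/B) ≥ log 3` and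
`s ≤ s' ≤ (106/105) s`, `s' = log (y'/B)`.  Let `x0, C` be as in `StEqz`.
If `s < 2 log x0` it is trivial (`C1 ≥ (2 log x0)^a`).  Let `s ≥ 2 log x0`.
(i) `20 s ≤ log B`: `x = exp (20 s) ≥ x0`, `z = B/x ≥ 1`, `z x = B`, `y/z = exp (21 s) = x^(105/100)`,
`y'/z = exp (20 s + s')` and `21 s ≤ 20 s + s' ≤ 21.2 s` (`106/105 ≤ 1.2`); `log x = 20 s ≥ s`.
(ii) `20 s > log B`: `z = 1`, `x = y^(100/105)`: `log x = (log B + s)/1.05 ≥ log B` as `s ≥ 0.05 log B`, so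
`B ≤ x`; `log x ≥ s/1.05 ≥ log x0`; `y = x^(105/100)`, `log y' = log B + s' ≤ (106/105)(log B + s) = 1.06 log x`;
the bound is `C (s/1.05)^(-a) ≤ 2 C s^(-a)`.
General `y' ≥ y`: pass from `s` to `s'` by the points `s_j = (106/105)^j s`;
`∑_j s_j^(-a) ≤ s^(-a)/(1 - (105/106)^a)`.  Hypotheses: StPo, StEqz. -/
def StCst : Prop := ∃ C : ℝ, 0 < C ∧ ∀ (B : ℕ) (y y' : ℝ) (f : ℕ → ℝ), 1 ≤ B → 3 * (B : ℝ) ≤ y →
  y ≤ y' → (∀ N, 0 ≤ f N ∧ f N ≤ 1) → Inv B f →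
  |II y f - II y' f| ≤ C * Real.log (y / B) ^ (-(1 / 1600) : ℝ)

/-- **Lim** (limit).  Proof: by `StCst` the function `y ↦ II y f` is Cauchy as `y → ∞` (the bound tends to
zero), so it has a limit `l`; let `y' → ∞` in `StCst`.  Hypotheses: StCst. -/
def StLim : Prop := ∃ C : ℝ, 0 < C ∧ ∀ (B : ℕ) (f : ℕ → ℝ), 1 ≤ B → (∀ N, 0 ≤ f N ∧ f N ≤ 1) →
  Inv B f → ∃ l : ℝ, Filter.Tendsto (fun y : ℝ => II y f) Filter.atTop (nhds l) ∧
  ∀ y : ℝ, 3 * (B : ℝ) ≤ y → |II y f - l| ≤ C * Real.log (y / B) ^ (-(1 / 1600) : ℝ)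

end Pool.Agent.Helper76.DE
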