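import Pool.Agent.Helper76.DE.StT

/-!
# Project DE, part N: predecessor sets of almost all integers have positive density

`D_m(M) = 3^m pim m M`.  Main inequality (`StHit`): for `w` large and every `A ⊆ [w, 2w]`
`∑_{a ∈ A} D_m(a)/a ≤ rho ∑_{a ∈ A} δ a + (small)`, `δ a` the density of the predecessor set of `a`.  Proof:
for a start `N` at scale `y`, `w x^0.02 ≤ y ≤ w x^0.03` (`x` a large constant), the expected number of visits to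
`A` is `∑_{a ∈ A} D_m(a)/a` in the mean over `y` (`StLN`, mixing); the number of visits has a bounded
second moment (`StVm`); the number of elements of `A` on the orbit of `N`, cut off at a constant, is invariant above
`2w`, so its integral is nearly constant in `y` (`StCst`), and its limit is at most `rho ∑ δ a`.
Part P: `D_m` is bounded below outside a set of small measure of residues prime to `3`, uniformly in `m`.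
`L = log x`, `D = L^(2/3)` throughout.
-/

set_option autoImplicit false

noncomputable section

namespace Pool.Agent.Helper76.DE

open Finset Pool.Agent.Helper76.ND

/-! ## N1. second moment of the number of visits -/

/-- **Va** (expected number of visits of the random walk).  Proof: `G u = u gg u`.  For `v' > 0`,
`∑_{t<T} ∑_{k ≤ t} q t k G (2^t v'/3^k) ≤ phi v' ≤ 1` (`StTe`, `StPo` (9), `phi ≤ 1`).  `G u ≥ 3/50` for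
`3/4 ≤ u ≤ 5/4` (`StPo` (6)).  With `μ_i = (5/6) (5/3)^i`, `i = 0..4`, every `u ∈ [3/16, 3/2]` has some
`u μ_i ∈ [3/4, 5/4]` (`[3/(4μ_i), 5/(4μ_i)]` are adjacent intervals from `3/2` down to `0.1167`), so
`ind u ≤ (50/3) ∑_i G (u μ_i)`; apply the first bound to `v' = v μ_i`: total `≤ 5 · 50/3 ≤ 100`.
Hypotheses: StPo, StTe. -/
def StVa : Prop := ∀ (T : ℕ) (v : ℝ), 0 < v →
  ∑ t ∈ range T, ∑ k ∈ range (t + 1), q t k * ind (2 ^ t * v / 3 ^ k) ≤ 100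

/-- **Vb** (second moment for words).  Proof: `Uv v l = ∑_t 1_t(l)`, `1_t(l) = ind (2^t v/3^(h_t))`, `h_t` the number of
heads of the suffix of length `t`.  `Uv² ≤ 2 ∑_{t ≤ t'} 1_t 1_t'`.  For `t ≤ t' ≤ T` split the word into
(prefix) ++ (middle of length `t' - t`) ++ (suffix of length `t`) (`sum_W_append` twice, `card_hd`):
`2^(-T) ∑_{l ∈ W T} 1_t 1_t' = ∑_k q t k ind (v_k) ∑_i q (t'-t) i ind (2^(t'-t) v_k/3^i)`, `v_k = 2^t v/3^k`.  Sum over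
`t'`: at most `100` (`StVa` for `v_k > 0`), then over `t`: at most `100`.  Hypotheses: StVa. -/
def StVb : Prop := ∀ (T : ℕ) (v : ℝ), 0 < v → ∑ l ∈ W T, Uv v l ^ 2 ≤ 20000 * 2 ^ T

/-- **Vc** (position in terms of the word).  Proof: `h = hd (wd t N)`, `wd t N` is the suffix of length `t` of
`wd (tz z x y) N` (`StRl` (3)).  `3^h N = 2^t S^[t] N + cc (wd t N)` (`StRl` (1)) and
`cc (wd t N)/3^h ≤ (L/2) x^(1/20) 3^D ≤ x^(21/20)/8 ≤ (y/z)/8 ≤ N/4` (`StDr`, `StPr`, as in `StVhz`); so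
`3N/4 ≤ 2^t S^[t] N/3^h ≤ N`, `y/2 ≤ N ≤ 3y/2`.  If `w ≤ S^[t] N` then `2^t w/(3^h y) ≤ 3/2`; if `S^[t] N ≤ 2w` then
`2^t w/(3^h y) ≥ 3/16`.  Sum over `t`.  Hypotheses: StRl, StDr, StPr. -/
def StVc : Prop := ∃ x0 : ℝ, 3 ≤ x0 ∧ ∀ (z x y w : ℝ) (N : ℕ), x0 ≤ x → YZ z x y → 0 < w → y / 2 ≤ N →
  (N : ℝ) ≤ 3 / 2 * y → Gd (Real.log x ^ (2 / 3 : ℝ)) (wd (tz z x y) N) →
  vis w (tz z x y) N ≤ Uv (w / y) (wd (tz z x y) N)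

open Classical in
/-- **Vm** (second moment of the number of visits; bad numbers).  Proof: `T = tz z x y`; only `y/2 ≤ N ≤ 3y/2`
matter (`StPo`), `mu y N ≤ 1/(4y)`.  Good `N`: by `StVc` and `StCy` (`2^T ≤ x^(1/4) ≤ y`, so at most
`2y/2^T + 1 ≤ 3y/2^T` numbers `N ≤ 2y` have a given word) the sum is at most
`(1/(4y)) (3y/2^T) ∑_{l ∈ W T} Uv (w/y) l ^ 2 ≤ 15000` (`StVb`).  Bad `N`: `vis ≤ T + 1 ≤ L`; by `StBn`
(`n = ⌊2y⌋`, `T ≤ L/2`, `2D²/T ≥ 4 L^(1/3)`) their measure is at most `(1/(4y)) 8 y T exp (-4 L^(1/3)) ≤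
L exp (-4 L^(1/3))`, and `L^4 exp (-4 L^(1/3))` is bounded (`u = L^(1/3)`, `u^12 exp (-4u)`).  (2) is the bound
`(∑_bad mu) L ≤ C/L`.  Hypotheses: StPo, StPr, StCy, StBn, StVb, StVc. -/
def StVm : Prop := ∃ x0 C : ℝ, 3 ≤ x0 ∧ 0 < C ∧ ∀ (z x y w : ℝ), x0 ≤ x → YZ z x y → 0 < w →
  ∑ N ∈ Icc 1 ⌊2 * y⌋₊, mu y N * vis w (tz z x y) N ^ 2 ≤ C ∧
  ∑ N ∈ (Icc 1 ⌊2 * y⌋₊).filter (fun N => ¬ Gd (Real.log x ^ (2 / 3 : ℝ)) (wd (tz z x y) N)),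
    mu y N * (tz z x y + 1) ≤ C / Real.log x

/-- **Vd** (no repetition).  Proof: `T = tz z x y`.  Suppose `S^[t] N = S^[t'] N`, `t < t' ≤ T`, `p = t' - t`.  Then
`S^[t + i p] N = S^[t] N` for all `i`; take `i` maximal with `t + i p ≤ T`, so `t + i p > T - p`, `i ≥ 1`.  By `StVhz` at the
times `t` and `t + i p`: `rho i p ≤ 6 D`, so `p ≤ 6D/rho` and `t ≥ T - p - i p ≥ T - 12 D/rho`; hence
`log S^[t] N ≤ log y - rho T + 12 D + 3 D ≤ log z + (101/100) L + rho + 15 D < log z + (102/100) L` for large `x`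
(`StPr` (7) for `(x, y/z)`), contrary to the hypothesis.  Hypotheses: StPr, StVhz. -/
def StVd : Prop := ∃ x0 : ℝ, 3 ≤ x0 ∧ ∀ (z x y : ℝ) (N : ℕ), x0 ≤ x → YZ z x y → y / 2 ≤ N →
  (N : ℝ) ≤ 3 / 2 * y → Gd (Real.log x ^ (2 / 3 : ℝ)) (wd (tz z x y) N) →
  ∀ t ≤ tz z x y, ∀ t' ≤ tz z x y, S^[t] N = S^[t'] N →
    z * x ^ (102 / 100 : ℝ) ≤ (S^[t] N : ℕ) → t = t'

/-! ## N2. first moment: mixing in the mean over `y` -/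

/-- **Yj** (the points `y_j`).  Proof: `Jn x ≤ L/100`, so `j < Jn x` gives `x^(105/100) ≤ yj/z ≤ x^(106/100)`;
`Jn x ≥ L/200` for `L ≥ 200`.  `t1` is monotone in `y`.  Hypotheses: none. -/
def StYj : Prop := ∀ (z x : ℝ), 1 ≤ z → Real.exp 200 ≤ x →
  (∀ j < Jn x, YZ z x (yj z x j) ∧ tz z x (yj z x j) ≤ t1 x (x ^ (106 / 100 : ℝ))) ∧
  Real.log x / 200 ≤ Jn x ∧ (Jn x : ℝ) ≤ Real.log x / 100

/-- **Ej** (mixing error in the mean over `y`; compare `Pool/Agent/Helper77/ND/M_Er.lean`).  Proof: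
`κ = rho/(L/100)`, `T = t1 x (x^(106/100))`, `G u = u gg u`, `V = 2^t M/3^k/yj`.  Grouping the words by `k = hd l`, the inner
sum of `Agz` is `∑_{k ≤ t} (3^k nt k t M/M) G V`, so `Agz - Amz` for `y = yj` is
`∑_{t ≤ tz} ∑_M kz f M ∑_{k ≤ t} (1/M)(3^k nt k t M - q t k 3^m pim m M) G V`, only `M ∈ [w, 2w]` occur.  Sum over `j`:
`∑_j G (V_j) ≤ 1/2` for fixed `t, k, M` (`G ≤ 1/4`, `G V ≠ 0` only for `1/2 < V < 3/2`, `V_j = V_0 e^(-j)`, `3 < e²`: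
at most two `j`); and it is `0` unless `3^k < 2^(t+1) M/yj ≤ 4 w 2^t/yj ≤ 4 w` for some `j` (`2^t ≤ 2^T ≤ yj`).
* `k ≥ m`: `g M = |nt k t M - q t k pim m M/3^(k-m)|` has period `3^k` (`StNs`), `3^k g M = |3^k nt - q 3^m pim|`;
  `StPe` (2) on `Ico ⌈w⌉ (⌊2w⌋+1)` (length `≤ w + 1`): `∑_{w ≤ M ≤ 2w} g M ≤ ((w+1)/3^k + 1) Del m k t`, so
  `∑ (1/M) 3^k g M ≤ ((w + 1 + 3^k)/w) Del ≤ 6 Del m k t`; contribution `≤ κ (1/2) 6 Del = 3 κ Del m k t`.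
* `k < m`: the same for `nt k t` (period `3^k`, sum `q t k`) and `pim m` (period `3^m`, sum `≤ 1`, `3^m ≤ w`):
  `(w+1+3^k)/w q + (w+1+3^m)/w q ≤ 6 q t k`... (`3^k ≤ 3^m ≤ w`, so `3 q + 3 q`), contribution `≤ 3 κ q t k`;
  `∑_t q t k ≤ 2` (`StQs`), `k < m`: total `≤ 6 κ m`.
Hypotheses: StNs, StPe, StQs, StPo, StYj. -/
def StEj : Prop := ∀ (z x w : ℝ) (m : ℕ) (f : ℕ → ℝ), 1 ≤ z → Real.exp 200 ≤ x → 1 ≤ w →
  (∀ M, 0 ≤ f M ∧ f M ≤ 1) → (∀ M : ℕ, f M ≠ 0 → w ≤ M ∧ (M : ℝ) ≤ 2 * w) →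
  (3 : ℝ) ^ m ≤ w → (2 : ℝ) ^ t1 x (x ^ (106 / 100 : ℝ)) ≤ x ^ (1 / 4 : ℝ) →
  |∑ j ∈ range (Jn x), (Agz z x (yj z x j) f - Amz z x (yj z x j) m f)| ≤
    rho / (Real.log x / 100) * (3 * ∑ t ∈ range (t1 x (x ^ (106 / 100 : ℝ)) + 1), ∑ k ∈ Icc m t, Del m k t + 20 * m)

/-- **LN** (first moment).  Proof: `κ = rho/(L/100)`, `m = mm x` (`3^m ≤ x^(1/2000) ≤ w` for large `x`), `y = yj z x j`,
`B_j = ∑_N mu y N ∑_{t ≤ tz} f (S^[t] N)`.  As `kz z x M = κ` on the support of `f`, `StFxz` gives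
`Awz z x y f = κ B_j`, and `JJz z x m f = κ ∑_M f M (3^m pim m M/M)`.  Sum over `j < Jn`:
`κ ∑_j B_j ≥ Jn JJz - Jn C/L² - κ (3 ∑∑ Del + 20 m) - Jn C/L²` (`StLiz`, `StEj`, `StMnz`).  Divide by `κ Jn`
(`κ = 100 rho/L`, `Jn ≥ L/200`): the mean of the `B_j` is at least `∑_M f M 3^m pim m M/M - C'/L -
C' (∑∑ Del + m)/L`, and by `StSd` (`T ≤ L/2` by `StPr`) `(∑∑ Del + m)/L ≤ C (m/L + m^(-1/200) + m/√L) ≤
C'' L^(-1/1600)` (`L^(1/8) ≤ m ≤ 2 L^(1/8)`).  Some `B_j` is at least the mean.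
Hypotheses: StPr, StPo, StFxz, StLiz, StMnz, StSd, StYj, StEj. -/
def StLN : Prop := ∃ x0 C : ℝ, 3 ≤ x0 ∧ 0 < C ∧ ∀ (z x w : ℝ) (f : ℕ → ℝ), x0 ≤ x → 1 ≤ z →
  z * zl x ≤ w → 2 * w ≤ z * zr x → (∀ M, 0 ≤ f M ∧ f M ≤ 1) →
  (∀ M : ℕ, f M ≠ 0 → w ≤ M ∧ (M : ℝ) ≤ 2 * w) →
  ∃ y : ℝ, YZ z x y ∧
    ∑ M ∈ Icc 1 ⌊2 * w⌋₊, f M * (3 ^ mm x * pim (mm x) M / M) - C * Real.log x ^ (-(1 / 1600) : ℝ) ≤
      ∑ N ∈ Icc 1 ⌊2 * y⌋₊, mu y N * ∑ t ∈ range (tz z x y + 1), f (S^[t] N)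

/-! ## N3. main inequality -/

/-- **Pi** (predecessor indicators).  Proof: for `N > a`: if `S^[k] N = a` then `k ≥ 1` and
`S^[k-1] (S N) = a`; conversely `S^[k] (S N) = a` gives `S^[k+1] N = a`.  (2) `T`-orbits contain the `S`-orbits:
`S n = T n` for `n` even, `S n = T (T n)` for `n` odd, so `S^[k] N` is some `T^[j] N`.  (3) as (1).
Hypotheses: none. -/
def StPi : Prop := (∀ a, Inv a (pS a)) ∧ (∀ a N, pS a N ≤ pT a N) ∧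
  (∀ a N, a < N → pT a (T N) = pT a N)

open Classical in
/-- **Hit** (main inequality).  Proof: `m = mm x`, `z = w/x^(103/100) ≥ 1`, so `z zl x = w` and
`2w ≤ z zr x` (`2 ≤ x^(1/100)`).  `f = 1_A`; `StLN` gives `y`.  Let `V N = ∑_{t ≤ tz} f (S^[t] N)`, `V ≤ vis w`, and
`F N = ∑_{a ∈ A} pS a N`.  For good `N` with `y/2 ≤ N ≤ 3y/2` the `t ≤ tz` with `S^[t] N ∈ A` have different values
`S^[t] N` (`StVd`, `w = z x^(103/100)`), each counted in `F N`, so `V N ≤ F N`.  Put `Q = L^(1/3200) ≥ 1` and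
`F' = min F Q`.  For good `N`: `V ≤ F' + V²/Q` (if `V > Q` then `V ≤ V²/Q`; otherwise `V ≤ min F Q`).  So
`∑ mu V ≤ II y F' + (∑ mu vis²)/Q + ∑_bad mu (tz + 1) ≤ II y F' + C/Q + C/L` (`StVm`).  `F'/Q` has values in
`[0, 1]` and is invariant above `B = ⌊2w⌋` (`StPi`); `y ≥ z x^(105/100) = w x^(2/100) ≥ 3 B`,
`log (y/B) ≥ L/100`.  By `StCst` for all `y' ≥ y`
`II y F' ≤ II y' F' + Q C (L/100)^(-1/1600) ≤ ∑_{a ∈ A} II y' (pS a) + C' L^(1/3200 - 1/1600)`, and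
`II y' (pS a) → rho δ a` as `y' → ∞` (`StDx` for `B = a`, `f = pS a`: limit `l` and mean `l/rho`, so `l/rho = δ a`).
Hence `∑_{a ∈ A} 3^m pim m a/a ≤ rho ∑ δ a + C'' L^(-1/3200)`.
Hypotheses: StPo, StVm, StVd, StLN, StPi, StCst, StDx. -/
def StHit : Prop := ∃ x0 C : ℝ, 3 ≤ x0 ∧ 0 < C ∧ ∀ (x w : ℝ) (A : Finset ℕ) (δ : ℕ → ℝ), x0 ≤ x →
  x ^ (103 / 100 : ℝ) ≤ w → (∀ a ∈ A, w ≤ a ∧ (a : ℝ) ≤ 2 * w) → DS δ →
  ∑ a ∈ A, 3 ^ mm x * pim (mm x) a / a ≤ rho * ∑ a ∈ A, δ a + C * Real.log x ^ (-(1 / 3200) : ℝ)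

/-! ## P. the limit law is positive -/

/-- **Pd** (doubling).  Proof: for a word `l` of length `s` with `m ≥ 1` heads ending in a head,
`replicate j false ++ l` has length `s + j`, `m` heads, ends in a head, the same `cc` (`cc_rep`), and
`2^(s+j) M = 2^s (2^j M)`; so `ns m m s (2^j M) / 2^j ≤ ns m m (s+j) M`.  Sum over `s < 8m + 1 - j`.
Hypotheses: none. -/
def StPd : Prop := ∀ m j M : ℕ, 1 ≤ m → j ≤ 8 * m →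
  ∑ s ∈ range (8 * m + 1 - j), ns m m s (2 ^ j * M) ≤ 2 ^ j * pim m M

/-- **Pz** (multiples of three, total mass).  Proof: (1) `cc l` is not divisible by `3` if `hd l ≥ 1` (induction:
`cc (true :: l) ≡ 2^|l|`), so for `3 ∣ M`, `m ≥ 1` no word has `3^m ∣ 2^s M + cc l`.  (2) `StNs` (4) and
`StQs` (4): `∑_M pim m M = ∑_{s ≤ 8m} qs m s ≥ 1 - 8^(-m)`; remove the multiples of `3` by (1).
Hypotheses: StNs, StQs. -/
def StPz : Prop := (∀ m M : ℕ, 1 ≤ m → 3 ∣ M → pim m M = 0) ∧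
  (∀ m : ℕ, 1 ≤ m → 1 - 1 / 8 ^ m ≤ ∑ M ∈ (range (3 ^ m)).filter (fun M => ¬ 3 ∣ M), pim m M)

/-- **Pc** (comparison of two precisions).  Proof: `K = 8m + 1`, `P M = ∑_{s<K} ns m0 m0 s M`,
`R M = ∑_{s<K} ns m0 m s M`.  By `StCh` `∑_{M<3^m} |pim m M - R M/3^(m-m0)| ≤ C m0^(-1/200)`.  `R, P, pim m0` have period
`3^m0` (`StNs`), so the other sums may be taken over `M < 3^m0` (`StPe` (1)).  `R ≤ P` (`StSp` with
`e = m = m0`, `n = m`, and `∑ qs ≤ 1`), `∑_{M<3^m0} P ≤ 1`, `∑ R = ∑_{s<K} qs m s ≥ 1 - 8^(-m)` (`StNs` (4),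
`StQs` (4)), so `∑ |P - R| ≤ 8^(-m)`; `P - pim m0` is `∑_{8 m0 < s < K} ns m0 m0 s M ≥ 0`, its sum is
`≤ 8^(-m0)` (`StQs` (3)).  And `8^(-m0) ≤ m0^(-1/200)`.  Hypotheses: StCh, StNs, StPe, StSp, StQs. -/
def StPc : Prop := ∃ C : ℝ, 0 < C ∧ ∀ m0 m : ℕ, 1 ≤ m0 → m0 ≤ m →
  ∑ M ∈ range (3 ^ m), |pim m M - pim m0 M / 3 ^ (m - m0)| ≤ C * (m0 : ℝ) ^ (-(1 / 200) : ℝ)

/-- **Pr2** (the powers of two run through the units).  Proof: `2` generates the units modulo `3^m0`: its order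
divides `2 · 3^(m0-1)`; `2^(3^(m0-1)) ≡ -1` (odd exponent modulo `3`, so it is not `1`), and for `m0 ≥ 2`
`4^(3^(m0-2)) - 1` is divisible by `3^(m0-1)` but not by `3^m0` (lifting the exponent), so the order is
`2 · 3^(m0-1)` (`orderOf_eq_of_pow_and_pow_div_prime`).  Multiplication by the unit `r` permutes the
units.  Hypotheses: none. -/
def StPr2 : Prop := ∀ (m0 r : ℕ) (g : ℕ → ℝ), 1 ≤ m0 → ¬ 3 ∣ r → (∀ M, g (M + 3 ^ m0) = g M) →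
  ∑ j ∈ range (2 * 3 ^ (m0 - 1)), g (2 ^ j * r) = ∑ u ∈ (range (3 ^ m0)).filter (fun u => ¬ 3 ∣ u), g u

/-- **Pp** (bijection).  Proof: `r ↦ 2^j r mod 3^m` is a bijection of `range (3^m)`.  Hypotheses: none. -/
def StPp : Prop := ∀ (m j : ℕ) (g : ℕ → ℝ), (∀ M, g (M + 3 ^ m) = g M) →
  ∑ r ∈ range (3 ^ m), g (2 ^ j * r) = ∑ r ∈ range (3 ^ m), g r

/-- **Ps** (positivity).  Proof: `D_m M = 3^m pim m M`.  Choose `m0 ≥ 1` with `4 C m0^(-1/200) ≤ ε/2` (`C` from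
`StPc`), `J = 2 · 3^(m0-1)`, `c = 2^(-J-1)`, `m1 ≥ max m0 J` with `2 J (3/2)^J/8^m1 ≤ ε/2`.  Let `m ≥ m1`, `r < 3^m`,
`3 ∤ r`.  By `StPr2`, `StPz`: `∑_{j<J} D_m0 (2^j r) = 3^m0 ∑_{u, 3∤u} pim m0 u ≥ 3^m0 (1 - 1/8) = (21/16) J`
(`3^m0 = 3J/2`).  `G1` = the `r` with `∑_{j<J} D_m (2^j r) < J`: there `∑_j |D_m - D_m0| (2^j r) ≥ (5/16) J`; summing
over `r` (`StPp`), `|G1| (5/16) J ≤ J 3^m ∑_{M<3^m} |pim m M - pim m0 M/3^(m-m0)| ≤ J 3^m C m0^(-1/200)`, so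
`|G1| ≤ 4 C m0^(-1/200) 3^m ≤ (ε/2) 3^m`.  `G2` = the `r` with `E_j r ≥ 1/2` for some `j < J`, where
`E_j r = 3^m ∑_{s ∈ Ico (8m+1-J) (8m+1)} ns m m s (2^j r)`: by `StPp` and `StNs` (4)
`|G2| ≤ 2 J 3^m ∑_{s ≥ 8m+1-J} qs m s ≤ 2 J 3^m (2/3)^(8m+1-J) 3^m ≤ 2 J (3/2)^J 8^(-m) 3^m ≤ (ε/2) 3^m`
(`StGen` with `z = 3/2`: `∑ qs m s (3/2)^s ≤ 3^m`; `3 (2/3)^8 ≤ 1/8`).  If `r ∉ G1 ∪ G2` there is `j < J` with
`D_m (2^j r) ≥ 1`, and by `StPd` `2^j D_m r ≥ D_m (2^j r) - E_j r ≥ 1/2`, so `D_m r ≥ c`.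
Hypotheses: StGen, StNs, StPd, StPz, StPc, StPr2, StPp. -/
def StPs : Prop := ∀ ε : ℝ, 0 < ε → ∃ c : ℝ, 0 < c ∧ ∃ m1 : ℕ, ∀ m ≥ m1,
  (((range (3 ^ m)).filter (fun r => ¬ 3 ∣ r ∧ 3 ^ m * pim m r < c)).card : ℝ) ≤ ε * 3 ^ m

/-! ## F. natural density -/

open Classical in
/-- **Fb** (one block).  Proof: `c1, m1` from `StPs` for `ε/8`.  `x0, C` from `StHit`; choose `x ≥ x0` with
`mm x ≥ m1` and `C L^(-1/3200) ≤ ε c1/8`, `c = ε c1/8`, `w0 ≥ max (x^(103/100)) (3^(mm x) + 1)`.  Let `w ≥ w0`,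
`m = mm x`, `A` = the `a ∈ [w, 2w]` with `3 ∤ a`, `δ a < c/a`, `3^m pim m a ≥ c1`.  Then
`c1 |A|/(2w) ≤ ∑_A 3^m pim m a/a ≤ rho c ∑_{a ∈ [w,2w]} 1/a + C L^(-1/3200) ≤ rho c (w+1)/w + ε c1/8 ≤ ε c1/4` (`rho ≤ 1/4`),
so `|A| ≤ ε w/2`.  The `a ∈ [w, 2w]` with `3 ∤ a` and `3^m pim m a < c1`: their indicator has period `3^m` (`StNs` (3)),
so by `StPe` (2) their number is at most `((w+1)/3^m + 1) (ε/8) 3^m ≤ (ε/8)(w + 1 + 3^m) ≤ ε w/2`.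
Hypotheses: StNs, StPe, StHit, StPs. -/
def StFb : Prop := ∀ δ : ℕ → ℝ, DS δ → ∀ ε : ℝ, 0 < ε → ∃ c w0 : ℝ, 0 < c ∧ 1 ≤ w0 ∧ ∀ w : ℝ, w0 ≤ w →
  (((Icc 1 ⌊2 * w⌋₊).filter (fun a : ℕ => w ≤ a ∧ ¬ 3 ∣ a ∧ δ a < c / a)).card : ℝ) ≤ ε * w

open Classical in
/-- **Fn** (natural density).  Proof: `c, w0` from `StFb` for `ε/2`; `X0 = ⌈2 w0/ε⌉ + 1`... The `a ≤ X` with the property
are either `≤ 2 w0` (at most `2 w0 ≤ (ε/2) X` for `X` large) or lie in one of the blocks `[X/2^(i+1), X/2^i]` with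
`X/2^(i+1) ≥ w0`; these have at most `(ε/2) X/2^(i+1)` such elements, sum `≤ (ε/2) X`.  Hypotheses: StFb. -/
def StFn : Prop := ∀ δ : ℕ → ℝ, DS δ → ∀ ε : ℝ, 0 < ε → ∃ c : ℝ, 0 < c ∧ ∃ X0 : ℕ, ∀ X ≥ X0,
  (((Icc 1 X).filter (fun a : ℕ => ¬ 3 ∣ a ∧ δ a < c / a)).card : ℝ) ≤ ε * X

/-- **Mv** (mean value).  Proof: let `0 < ε ≤ 1`, `τ = ε/8`; choose `x` large with (`L = log x`, `m = mm x`)
`C L^(-1/3200) ≤ ε τ/8` (`C` from `StHit`), `8^(-m) ≤ ε/8`, and let `w ≥ w0` with `(3^m + 1)/w0 ≤ ε τ/8`,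
`w0 ≥ x^(103/100)`.  `A` = the integers in `(w, (1+τ) w]` (`⊆ [w, 2w]`).  By `StHit`
`rho ∑_A a δ a ≥ rho w ∑_A δ a ≥ w (∑_A 3^m pim m a/a - ε τ/8) ≥ (1/(1+τ)) ∑_A 3^m pim m a - ε τ w/8`, and
`∑_A 3^m pim m a ≥ (τ w/3^m - 2) 3^m (1 - 8^(-m)) ≥ (τ w - 2 · 3^m)(1 - ε/8)` (complete periods, `StPz`, `StNs`), so
`rho ∑_A a δ a ≥ τ w (1 - τ)(1 - ε/8) - 3 ε τ w/8 ≥ τ w (1 - 3 ε/4)` (roughly; all constants may be
adapted).  Apply this to `w_i = X/(1+τ)^(i+1)` as long as `w_i ≥ w0`: `∑ τ w_i ≥ X - w0 (1+τ)`... (`τ w_i = ` length of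
the block, the blocks are disjoint), total `≥ (X - 2 w0)(1 - 3ε/4)/rho ≥ (1/rho - ε/rho) X` for large `X`.
(`δ a ≥ 0`.)  Hypotheses: StNs, StPe, StPz, StHit. -/
def StMv : Prop := ∀ δ : ℕ → ℝ, DS δ → ∀ ε : ℝ, 0 < ε → ∃ X0 : ℕ, ∀ X ≥ X0,
  (1 / rho - ε) * X ≤ ∑ a ∈ Icc 1 X, a * δ a

end Pool.Agent.Helper76.DE
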