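import Pool.Agent.Helper76.DE.StL

/-!
# Project DE, part T: Tauberian theorem for the kernel `gg`, existence of densities

`gg` comes from the potential `phi v = min 1 (1/v)` of the random walk `v ↦ v/2`, `v ↦ 3v/2`:
`phi v = phi (2v)/2 + phi (2v/3)/2 + v gg v` (`StPo`).  So with `HH Q f y = ∑ phi (n/y) f n/n` we have
`II y f = HH y - (HH (y/2) + HH (3y/2))/2`.  With `h s = HH (exp s)` this reads
`h s - (h (s - la) + h (s + lb))/2 = II (exp s) f`, `la = log 2`, `lb = log (3/2)`.  If `II` is nearly constant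
then the differences `h (s + γ) - h s` are nearly harmonic for the random walk with steps `-la`, `+lb`, hence
nearly constant (coupling, `la/lb` is irrational), so `h` is nearly linear with slope `l/rho`
(`rho = (la - lb)/2`), and the mean of `f` is near `l/rho`.
-/

set_option autoImplicit false

noncomputable section

namespace Pool.Agent.Helper76.DE

open Finset Pool.Agent.Helper76.ND

/-! ## Abstract part: nearly harmonic functions -/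

/-- **Bi** (binomial law under a shift).  Proof: for `2 j ≤ n`, `choose n (j-1) ≤ choose n j`, afterwards the
sequence decreases (`Nat.choose_le_succ_of_lt_half_left`, symmetry), so the sum of the absolute differences
telescopes to `2 * choose n (n/2)` and `tau n = 2 choose n (n/2)/2^n`.  And `choose n (n/2)/2^n → 0`:
for `n = 2m`, `C(2m,m)² (2m+1) ≤ 16^m` (induction: `C(2m+2,m+1) = C(2m,m) 2(2m+1)/(m+1)` and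
`4 (2m+1)(2m+3) ≤ 16 (m+1)²`); for `n = 2m+1`, `C(2m+1,m) ≤ 2 C(2m,m)`.  Hypotheses: none. -/
def StBi : Prop := ∀ ε : ℝ, 0 < ε → ∃ n0 : ℕ, ∀ n ≥ n0, tau n ≤ ε

/-- **Ir** (density of the steps).  Proof: `lb/la` is irrational (`2^p ≠ (3/2)^q`, i.e. `2^(p+q) ≠ 3^q`, for
natural `p, q`, `q ≥ 1`), so the integers combinations `j lb - i la` are dense in the reals
(`dense_addSubgroupClosure_pair_iff` or Dirichlet).  Take a finite `η/3`-net of `[-T, T]` and integers `(i, j)` for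
each of its points with error `≤ η/3`; let `K` be the maximum of the `|i|, |j|`.  There are `p, q ≥ 1` with
`|q lb - p la| ≤ η/(3 (K+1))` (Dirichlet for `lb/la`, or density near `0` with `q ≠ 0`; `la, lb > 0` force the
same sign).  Replace `(i, j)` by `(i + (K+1) p, j + (K+1) q)`.  Hypotheses: none. -/
def StIr : Prop := ∀ T η : ℝ, 0 < T → 0 < η → ∃ J : ℕ, ∀ τ : ℝ, |τ| ≤ T →
  ∃ i ≤ J, ∃ j ≤ J, |((j : ℕ) : ℝ) * lb - ((i : ℕ) : ℝ) * la - τ| ≤ η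

/-- **Ha** (`n` steps of the random walk).  Proof: first, by induction on `n`,
`|g s - ∑_{k ≤ n} q n k g (s + k lb - (n-k) la)| ≤ n η` if `[s - n la, s + n lb] ⊆ [α, β]` (Pascal:
`q (n+1) k = (q n k + q n (k-1))/2`).  Apply this to `s - la` and to `s + lb`: with
`Y_j = s + j lb - (n+1-j) la` the two sums are `∑_j q n j g (Y_j)` and `∑_j q n (j-1) g (Y_j)`, `0 ≤ j ≤ n+1`;
all `|g (Y_j)| ≤ G`, so they differ by at most `G tau n`.  Hypotheses: none. -/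
def StHa : Prop := ∀ (g : ℝ → ℝ) (α β G η s : ℝ) (n : ℕ), 0 ≤ G → 0 ≤ η →
  (∀ u, α ≤ u → u ≤ β → |g u| ≤ G) →
  (∀ u, α ≤ u - la → u + lb ≤ β → |g u - (g (u - la) + g (u + lb)) / 2| ≤ η) →
  α ≤ s - (n + 1) * la → s + (n + 1) * lb ≤ β →
  |g (s + lb) - g (s - la)| ≤ G * tau n + 2 * n * η

/-- **Nc** (nearly constant).  Proof: `J` from `StIr` for `(T, ε/16)`; `n` with `4 tau n * J ≤ ε/8` (`StBi`),
`η > 0` with `J (n+1) η ≤ ε/8`, `Λ = T + (2J + n + 2)(la + lb)`.  For `|s - s0| ≤ J (la + lb)`, by `StHa` with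
`[α, β] = [s0 - Λ, s0 + Λ]`, `G = 4`: `|g (s + lb) - g (s - la)| ≤ 4 tau n + 2 n η`, and
`|g s - (g (s-la) + g (s+lb))/2| ≤ η`, hence `|g (s + lb) - g s| ≤ θ` and `|g (s - la) - g s| ≤ θ` with
`θ = 2 tau n + (n+1) η`.  Given `s` with `|s - s0| ≤ T` take `i, j ≤ J` with `|j lb - i la - (s - s0)| ≤ ε/16`;
walk from `s0` with `j` steps `+lb` and then `i` steps `-la`: `|g (s0 + j lb - i la) - g s0| ≤ 2 J θ ≤ ε/2`;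
and `|g s - g (s0 + j lb - i la)| ≤ 8 ε/16`.  Hypotheses: StBi, StIr, StHa. -/
def StNc : Prop := ∀ T ε : ℝ, 0 < T → 0 < ε → ∃ Λ η : ℝ, T ≤ Λ ∧ 0 < η ∧ ∀ (g : ℝ → ℝ) (s0 : ℝ),
  (∀ u, |u - s0| ≤ Λ → |g u| ≤ 4) →
  (∀ u v, |u - s0| ≤ Λ → |v - s0| ≤ Λ → |g u - g v| ≤ 8 * |u - v|) →
  (∀ u, s0 - Λ ≤ u - la → u + lb ≤ s0 + Λ → |g u - (g (u - la) + g (u + lb)) / 2| ≤ η) →
  ∀ s, |s - s0| ≤ T → |g s - g s0| ≤ ε

/-- **Nl** (nearly linear).  Proof: we may assume `T ≥ 1`.  Let `ε2 = ε rho/(8 T)` (so `ε2 ≤ ε/4`), `m ∈ ℕ`,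
`m ≥ 1` with `8/m ≤ ε2/2`, `γ = 1/m`, `ε1 = ε2/(2 m (T+1))`; `StNc` for `(T+1, ε1)` gives `Λ0, η0`; `Λ = Λ0 + 1`,
`η = min (η0/2) ε2`.  Let `g s = h (s+γ) - h s`: `0 ≤ g ≤ 4 γ ≤ 4`; `|g u - g v| ≤ 8 |u - v|` (if `|u-v| ≤ 1` by
the bound for `h`, otherwise since `|g u - g v| ≤ 4`); the harmonic defect of `g` is at most `2 η ≤ η0`.  So
`|g s - g s0| ≤ ε1` for `|s - s0| ≤ T+1`.  Let `c0 = m g s0 ∈ [0, 4]`.  For `s = s0 + τ`, `0 ≤ τ ≤ T`,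
`n = ⌊τ m⌋`: `h (s0 + n/m) - h s0 = ∑_{i<n} g (s0 + i/m)`, so it differs from `n c0/m` by at most
`n ε1 ≤ T m ε1`; `0 ≤ h s - h (s0 + n/m) ≤ 4/m`, `|n c0/m - τ c0| ≤ 4/m`; total `≤ T m ε1 + 8/m ≤ ε2`.  The same
for `τ < 0` (`h s0 - h (s0 - n/m)`).  At `s0` the hypothesis for `u = s0` gives
`|rho c0 - l| ≤ η + ε2` (`-( -la c0 + lb c0)/2 = rho c0`, `rho = log (4/3)/2`, `la, lb ≤ 1 ≤ T`), so
`|c0 - l/rho| ≤ 2 ε2/rho`, and `ε2 + T 2 ε2/rho ≤ ε`.  Hypotheses: StNc. -/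
def StNl : Prop := ∀ T ε : ℝ, 0 < T → 0 < ε → ∃ Λ η : ℝ, T ≤ Λ ∧ 0 < η ∧ ∀ (h : ℝ → ℝ) (s0 l : ℝ),
  (∀ u v, |u - s0| ≤ Λ → |v - s0| ≤ Λ → u ≤ v → v ≤ u + 1 → 0 ≤ h v - h u ∧ h v - h u ≤ 4 * (v - u)) →
  (∀ u, s0 - Λ ≤ u - la → u + lb ≤ s0 + Λ → |h u - (h (u - la) + h (u + lb)) / 2 - l| ≤ η) →
  ∀ s, |s - s0| ≤ T → |h s - h s0 - l / rho * (s - s0)| ≤ ε

/-! ## The smoothed sum -/

/-- **Hh** (properties of `HH`).  Proof: (1) For `N > 2y` `gg (N/y) = 0`, so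
`II y f = ∑_{N ∈ Icc 1 Q} gg (N/y)/y f N` (`⌊2y⌋ ≤ Q`); for `v = N/y > 0`,
`gg v/y = (v gg v)/N = (phi v - phi (2v)/2 - phi (2v/3)/2)/N` (`StPo`) and `N/(y/2) = 2v`, `N/(3y/2) = 2v/3`.
(2) `phi (n/y') - phi (n/y)` is `0` for `n ≤ y` and in `[0, (y'-y)/n]` for `n > y`; and
`∑_{n ∈ Icc 1 Q, y < n} 1/n² ≤ 2/y` for `y ≥ 1` (with `m = ⌊y⌋ + 1 ≥ 2`: `∑_{n ≥ m} 1/n² ≤ ∑ 1/((n-1) n) ≤ 1/(m-1) ≤
2/m`).  (3) For `n > λ y` the difference `phi (n/(λy)) - phi (n/y)` is `(λ-1) y/n`, for `y < n ≤ λ y` it is in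
`[0, (λ-1) y/n]` (`1 - y/n ≤ (λ-1) y/n` as `n ≤ λ y`), for `n ≤ y` it is `0`.
(4) `0 ≤ Ct` and `y Ct Q f y ≤ 2` for `y ≥ 1` as in (2).  Hypotheses: StPo. -/
def StHh : Prop := ∀ (Q : ℕ) (f : ℕ → ℝ), (∀ n, 0 ≤ f n ∧ f n ≤ 1) →
  (∀ y : ℝ, 0 < y → 2 * y ≤ Q → II y f = HH Q f y - (HH Q f (y / 2) + HH Q f (3 * y / 2)) / 2) ∧
  (∀ y y' : ℝ, 1 ≤ y → y ≤ y' → 0 ≤ HH Q f y' - HH Q f y ∧ HH Q f y' - HH Q f y ≤ 2 * (y' / y - 1)) ∧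
  (∀ y r : ℝ, 0 < y → 1 ≤ r → (r - 1) * y * Ct Q f (r * y) ≤ HH Q f (r * y) - HH Q f y ∧
    HH Q f (r * y) - HH Q f y ≤ (r - 1) * y * Ct Q f y) ∧
  (∀ y : ℝ, 0 ≤ Ct Q f y) ∧ (∀ y : ℝ, 1 ≤ y → y * Ct Q f y ≤ 2) ∧ Ct Q f 0 ≤ 2

/-- **Rr** (the tail).  Proof: let `μ = √ε`, `r = 1 + μ ≤ 2`, `u = log y`.  By `StHh` (3)
`μ y Ct y ≥ HH (r y) - HH y ≥ c log r - 2 ε`, so `y Ct y ≥ c (log (1+μ)/μ) - 2 μ ≥ c - 4 μ`
(`1 - μ/2 ≤ log (1+μ)/μ ≤ 1`, `|c| ≤ 4`); and with `y/r` in place of `y`: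
`μ (y/r) Ct y ≤ HH y - HH (y/r) ≤ c log r + 2 ε`, so `y Ct y ≤ (r/μ)(c log r + 2 ε) ≤ c + 8 μ`... precisely
`(1+μ)(c log r/μ + 2 μ) ≤ c + |c| μ/2 + |c| μ + 4 μ ≤ c + 10 μ`.  (`log r ≤ μ ≤ 1`.)
Hypotheses: StHh. -/
def StRr : Prop := ∀ (Q : ℕ) (f : ℕ → ℝ) (s0 c T ε : ℝ), (∀ n, 0 ≤ f n ∧ f n ≤ 1) → 0 < ε → ε ≤ 1 →
  |c| ≤ 4 → 1 ≤ T →
  (∀ s, |s - s0| ≤ T → |HH Q f (Real.exp s) - HH Q f (Real.exp s0) - c * (s - s0)| ≤ ε) →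
  ∀ y : ℝ, 0 < y → |Real.log y - s0| ≤ T - 1 → |y * Ct Q f y - c| ≤ 10 * Real.sqrt ε

/-- **Ce** (from the tail to the mean).  Proof: for `1 ≤ n ≤ M ≤ Q`, `f n = n² (Ct (n-1) - Ct n)`; summation by
parts: `∑_{n ∈ Icc 1 M} f n = ∑_{n < M} (2n+1) Ct n - M² Ct M` (induction on `M`).  Divide by `M`, `R n = n Ct n`:
`mean = - R M + (1/M) ∑_{n<M} (2n+1) Ct n`.  The terms `N0 ≤ n < M` are `(2 + 1/n) R n`: their sum differs from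
`2 c (M - N0)` by at most `2 ε (M - N0) + 2 M/N0`; the term `n = 0` is at most `2`, the terms `1 ≤ n < N0` are at
most `3 · 2`, so together `≤ 6 N0`.  Total: `|mean - c| ≤ 3 ε + 2/N0 + (6 N0 + 8 N0)/M` (`|c| ≤ 4`, and
`n = 0` only if `N0 ≥ 1`).  Hypotheses: StHh. -/
def StCe : Prop := ∀ (Q M N0 : ℕ) (f : ℕ → ℝ) (c ε : ℝ), (∀ n, 0 ≤ f n ∧ f n ≤ 1) → 1 ≤ N0 → N0 ≤ M →
  M ≤ Q → |c| ≤ 4 → 0 ≤ ε → (∀ n : ℕ, N0 ≤ n → n ≤ M → |(n : ℝ) * Ct Q f n - c| ≤ ε) →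
  |(∑ n ∈ Icc 1 M, f n) / M - c| ≤ 3 * ε + 2 / N0 + 14 * N0 / M

/-- **Tau** (Tauberian theorem).  Proof: choose `T ≥ 2` with `14 · 2 e^(-(T-1)) ≤ ε/4`, `ε3 ≤ 1` with
`30 √ε3 ≤ ε/4`; `StNl` for `(T, ε3)` gives `Λ, η0`; `η = min η0 (1/20)`, `K ≥ e^(Λ+1)`, `K ≥ 32/ε · e^(T-1)`,
`K ≥ 2`.  Let `M ≥ K`, `s0 = log M`, `Q = ⌈2 K M⌉`, `h s = HH Q f (exp s)`.  For `|u - s0| ≤ Λ`,
`e^u ∈ [M/K, K M]`, `e^u ≥ 1`, `2 e^u ≤ Q`; by `StHh` (2) `0 ≤ h v - h u ≤ 2 (e^(v-u) - 1) ≤ 4 (v-u)` for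
`0 ≤ v - u ≤ 1`; by `StHh` (1) the second hypothesis of `StNl` holds.  So
`|h s - h s0 - c (s-s0)| ≤ ε3` for `|s - s0| ≤ T`, `c = l/rho`; `|c| ≤ 4` as `0 ≤ II ≤ 1/2` (`StPo`), so
`-η ≤ l ≤ 1/2 + η`, `rho ≥ 0.143`.  `StRr`: `|y Ct y - c| ≤ 10 √ε3` for `|log y - s0| ≤ T - 1`.  `StCe` with
`N0 = ⌈M e^(-(T-1))⌉ ≤ 2 M e^(-(T-1))`: error `≤ 30 √ε3 + 2/N0 + 28 e^(-(T-1)) ≤ ε`
(`N0 ≥ K e^(-(T-1)) ≥ 32/ε`).  Hypotheses: StPo, StNl, StHh, StRr, StCe. -/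
def StTau : Prop := ∀ ε : ℝ, 0 < ε → ∃ K η : ℝ, 2 ≤ K ∧ 0 < η ∧ ∀ (M : ℕ) (f : ℕ → ℝ) (l : ℝ),
  K ≤ M → (∀ n, 0 ≤ f n ∧ f n ≤ 1) → (∀ y : ℝ, M / K ≤ y → y ≤ K * M → |II y f - l| ≤ η) →
  |(∑ n ∈ Icc 1 M, f n) / M - l / rho| ≤ ε

/-! ## Densities -/

/-- **Dx** (means exist).  Proof: let `l` be the limit of `StLim`, `C` its constant.  Given `ε` take `K, η` from
`StTau` and `K'' ≥ 3` with `C (log K'')^(-1/1600) ≤ η`, `K' = K K''`.  If `M ≥ K' B` (so `M ≥ K`) and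
`M/K ≤ y`, then `y ≥ K'' B ≥ 3 B` and `|II y f - l| ≤ C (log (y/B))^(-1/1600) ≤ η`.  So `StTau` applies to every
`M ≥ K' B`.  This gives the third statement, and the second one (for every `ε`).
Hypotheses: StLim, StTau. -/
def StDx : Prop := ∀ ε : ℝ, 0 < ε → ∃ K : ℝ, 0 < K ∧ ∀ (B : ℕ) (f : ℕ → ℝ), 1 ≤ B →
  (∀ N, 0 ≤ f N ∧ f N ≤ 1) → Inv B f →
  ∃ l : ℝ, Filter.Tendsto (fun y : ℝ => II y f) Filter.atTop (nhds l) ∧ Mean f (l / rho) ∧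
  ∀ M : ℕ, K * B ≤ M → |(∑ n ∈ Icc 1 M, f n) / M - l / rho| ≤ ε

/-- **Dt** (means for the map `T`).  Proof: if `f (T n) = f n` for `n > B` then `Inv B f`: for `N > B` even
`S N = T N`; for `N` odd `S N = T (3N-1)` and `3N - 1 = T N > B`, so `f (S N) = f (T N) = f N`.  Now `StDx`.
(For `0 < x` real division by zero does not matter.)  Hypotheses: StDx. -/
def StDt : Prop := ∀ ε : ℝ, 0 < ε → ∃ K : ℝ, 0 < K ∧ ∀ (B : ℕ) (f : ℕ → ℝ), 1 ≤ B →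
  (∀ N, 0 ≤ f N ∧ f N ≤ 1) → (∀ N, B < N → f (T N) = f N) →
  ∃ d : ℝ, Mean f d ∧ ∀ M : ℕ, K * B ≤ M → |(∑ n ∈ Icc 1 M, f n) / M - d| ≤ ε

open Classical in
/-- **Sg** (countable additivity on the invariant sets).  Proof: write `1_E` for indicators.  Each
`1_(E i)` satisfies `f (T n) = f n` for `n ≥ 1`, so it has a mean `d i ∈ [0, 1]` (`StDt`, `B = 1`), and so has the
indicator of the union `U` (mean `D`) and of `V j = U \ ⋃_{i<j} E i` (mean `v j`); `D = ∑_{i<j} d i + v j` (means are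
additive, the sets are disjoint).  Given `B ≥ 2` the finite set `Icc 1 B` meets only finitely many `E i`
(disjointness), so for large `j` `V j` contains no element of `Icc 1 B`; as `V j` is invariant the orbits
of its elements stay above `B`, and by `StFi` (1) `v j ≤ C/(log B)^(1/1600)`.  `v` is nonincreasing and
nonnegative, so `v j → 0`, i.e. `HasSum d D`.  Hypotheses: StDt, StFi. -/
def StSg : Prop := ∀ E : ℕ → Set ℕ, (∀ i j, i ≠ j → ∀ n, 1 ≤ n → n ∈ E i → n ∉ E j) →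
  (∀ i n, 1 ≤ n → (T n ∈ E i ↔ n ∈ E i)) →
  ∃ d : ℕ → ℝ, (∀ i, Mean (fun n => if n ∈ E i then 1 else 0) (d i)) ∧
    ∃ D : ℝ, Mean (fun n => if ∃ i, n ∈ E i then 1 else 0) D ∧ HasSum d D

end Pool.Agent.Helper76.DE
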